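import Pool.Agent.Helper80.EC_F.Goals

/-!
# MP_ecc237_nt, PART F, packet LIPM (Lipschitz formula)
-/

set_option autoImplicit false

open MeasureTheory Filter Topology Set Complex

namespace EC237.PF.PkLIPM

/-- the point `t + i w`. -/
noncomputable def pnt (t w : ℝ) : ℂ := (t : ℂ) + I * w

theorem pnt_im (t w : ℝ) : (pnt t w).im = w := by simp [pnt]

/-- the summands `n^k e^{-2πnw} sin(2πnt)`. -/
noncomputable def Sk (t w : ℝ) (k n : ℕ) : ℝ :=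
  (n:ℝ) ^ k * (Real.exp (-(2 * Real.pi * w * n)) * Real.sin (2 * Real.pi * n * t))

theorem qpow (t w : ℝ) (n : ℕ) : cexp (2 * Real.pi * I * pnt t w) ^ n =
    ((Real.exp (-(2 * Real.pi * w * n)) : ℝ) : ℂ) *
      (((Real.cos (2 * Real.pi * n * t) : ℝ) : ℂ) + ((Real.sin (2 * Real.pi * n * t) : ℝ) : ℂ) * I) := by
  rw [← Complex.exp_nat_mul, Complex.ofReal_exp, Complex.ofReal_cos, Complex.ofReal_sin,
    ← Complex.exp_mul_I, ← Complex.exp_add]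
  congr 1
  unfold pnt
  push_cast
  have : I * I = -1 := Complex.I_mul_I
  linear_combination (2 * (Real.pi:ℂ) * n * w) * this

theorem term_im (t w : ℝ) (k n : ℕ) :
    ((n:ℂ) ^ k * cexp (2 * Real.pi * I * pnt t w) ^ n).im = Sk t w k n := by
  rw [qpow]
  have h1 : (n:ℂ) ^ k = (((n:ℝ) ^ k : ℝ) : ℂ) := by push_cast; rfl
  rw [h1, Complex.im_ofReal_mul, Complex.im_ofReal_mul]
  unfold Sk
  congr 2
  rw [Complex.add_im, Complex.mul_I_im, Complex.ofReal_im, Complex.ofReal_re, zero_add]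

/-- the sums. -/
theorem hasSum_S (t : ℝ) {w : ℝ} (hw : 0 < w) (k : ℕ) : ∃ S : ℂ,
    HasSum (fun n : ℕ => (n:ℂ) ^ k * cexp (2 * Real.pi * I * pnt t w) ^ n) S ∧
    HasSum (fun n : ℕ => Sk t w k n) S.im ∧
    (1 ≤ k → HasSum (fun j : ℤ => 1 / (pnt t w + j) ^ (k + 1))
      ((-2 * Real.pi * I) ^ (k + 1) / (k.factorial : ℂ) * S)) := by
  have hz : 0 < (pnt t w).im := by rw [pnt_im]; exact hw
  have h1 := summable_pow_mul_cexp k 1 ⟨pnt t w, hz⟩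
  have h2 : Summable (fun n : ℕ => (n:ℂ) ^ k * cexp (2 * Real.pi * I * pnt t w) ^ n) := by
    refine h1.congr fun n => ?_
    simp
  refine ⟨_, h2.hasSum, ?_, fun hk => ?_⟩
  · have h3 := Complex.hasSum_im h2.hasSum
    simpa only [term_im] using h3
  · have h4 := EisensteinSeries.qExpansion_identity hk ⟨pnt t w, hz⟩
    have h5 : Summable (fun j : ℤ => 1 / (pnt t w + j) ^ (k + 1)) := by
      have h6 := EisensteinSeries.linear_right_summable (pnt t w) 1 (k := (k + 1 : ℕ)) (by omega)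
      refine h6.congr fun j => ?_
      rw [zpow_natCast, one_div, Int.cast_one, one_mul]
    have h7 := h5.hasSum
    rwa [h4] at h7

/-- The shift of the index. -/
theorem shift {t w : ℝ} {k : ℕ} (hk : 1 ≤ k) {s : ℝ} (h : HasSum (fun n : ℕ => Sk t w k n) s) :
    HasSum (fun n : ℕ => Sk t w k (n + 1)) s := by
  have h1 := (hasSum_nat_add_iff' 1).2 h
  have h2 : Sk t w k 0 = 0 := by
    unfold Sk
    rw [Nat.cast_zero, zero_pow (by omega), zero_mul]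
  simpa [h2] using h1

theorem inv_pow_eq {x w : ℝ} (hw : 0 < w) (m : ℕ) : 1 / ((x : ℂ) + I * w) ^ m =
    (((x ^ 2 + w ^ 2) ^ m)⁻¹ : ℝ) * ((x : ℂ) - I * w) ^ m := by
  have h0 : (x ^ 2 + w ^ 2 : ℝ) ≠ 0 := by positivity
  have h1 : ((x : ℂ) + I * w) * ((x : ℂ) - I * w) = ((x ^ 2 + w ^ 2 : ℝ) : ℂ) := by
    push_cast
    have : I * I = -1 := Complex.I_mul_I
    linear_combination (-(w:ℂ) ^ 2) * this
  have h2 : ((x : ℂ) + I * w) ≠ 0 := by
    intro h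
    rw [h, zero_mul] at h1
    exact h0 (by exact_mod_cast h1.symm)
  have h3 : ((x : ℂ) + I * w) ^ m * ((x : ℂ) - I * w) ^ m = (((x ^ 2 + w ^ 2) ^ m : ℝ) : ℂ) := by
    rw [← mul_pow, h1, Complex.ofReal_pow]
  have h4 : (((x ^ 2 + w ^ 2) ^ m : ℝ) : ℂ) ≠ 0 := by
    exact_mod_cast pow_ne_zero m h0
  rw [Complex.ofReal_inv, one_div, inv_eq_iff_eq_inv, mul_inv, inv_inv, ← h3]
  have h5 : ((x : ℂ) - I * w) ^ m ≠ 0 := by
    intro h
    rw [h, mul_zero] at h3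
    exact h4 h3.symm
  field_simp

theorem pt2 {x w : ℝ} (hw : 0 < w) : (1 / ((x : ℂ) + I * w) ^ 2).im =
    -(2 * x * w) / (x ^ 2 + w ^ 2) ^ 2 := by
  rw [inv_pow_eq hw, Complex.im_ofReal_mul]
  have h1 : ((x : ℂ) - I * w) ^ 2 = ((x ^ 2 - w ^ 2 : ℝ) : ℂ) + ((-(2 * x * w) : ℝ) : ℂ) * I := by
    push_cast
    have : I * I = -1 := Complex.I_mul_I
    linear_combination ((w:ℂ) ^ 2) * this
  rw [h1, Complex.add_im, Complex.ofReal_im, Complex.mul_I_im, Complex.ofReal_re, zero_add]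
  ring

theorem pt3 {x w : ℝ} (hw : 0 < w) : (1 / ((x : ℂ) + I * w) ^ 3).re =
    (x ^ 3 - 3 * x * w ^ 2) / (x ^ 2 + w ^ 2) ^ 3 := by
  rw [inv_pow_eq hw, Complex.re_ofReal_mul]
  have h1 : ((x : ℂ) - I * w) ^ 3 = ((x ^ 3 - 3 * x * w ^ 2 : ℝ) : ℂ) +
      ((w ^ 3 - 3 * x ^ 2 * w : ℝ) : ℂ) * I := by
    push_cast
    have : I * I = -1 := Complex.I_mul_I
    linear_combination (3 * (x:ℂ) * (w:ℂ) ^ 2 - (w:ℂ) ^ 3 * I) * this
  rw [h1, Complex.add_re, Complex.ofReal_re, Complex.mul_I_re, Complex.ofReal_im, neg_zero, add_zero]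
  ring

theorem pt4 {x w : ℝ} (hw : 0 < w) : (1 / ((x : ℂ) + I * w) ^ 4).im =
    (-(4 * x ^ 3 * w) + 4 * x * w ^ 3) / (x ^ 2 + w ^ 2) ^ 4 := by
  rw [inv_pow_eq hw, Complex.im_ofReal_mul]
  have h1 : ((x : ℂ) - I * w) ^ 4 = ((x ^ 4 - 6 * x ^ 2 * w ^ 2 + w ^ 4 : ℝ) : ℂ) +
      ((-(4 * x ^ 3 * w) + 4 * x * w ^ 3 : ℝ) : ℂ) * I := by
    push_cast
    have : I * I = -1 := Complex.I_mul_I
    linear_combination (6 * (x:ℂ) ^ 2 * (w:ℂ) ^ 2 - 4 * (x:ℂ) * (w:ℂ) ^ 3 * I +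
      (w:ℂ) ^ 4 * (I * I - 1)) * this
  rw [h1, Complex.add_im, Complex.ofReal_im, Complex.mul_I_im, Complex.ofReal_re, zero_add]
  ring

theorem pnt_add (t w : ℝ) (j : ℤ) : pnt t w + j = (((j:ℝ) + t : ℝ) : ℂ) + I * w := by
  unfold pnt
  push_cast
  ring

theorem Sk_succ (t w : ℝ) (k n : ℕ) : Sk t w k (n + 1) = ((n:ℝ) + 1) ^ k *
    (Real.exp (-(2 * Real.pi * w * ((n:ℝ) + 1))) * Real.sin (2 * Real.pi * ((n:ℝ) + 1) * t)) := by
  unfold Sk
  push_cast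
  rfl

theorem thm : EC237.PF.G_LIPM := by
  intro w t hw
  obtain ⟨S1, -, b1, c1⟩ := hasSum_S t hw 1
  obtain ⟨S2, -, b2, c2⟩ := hasSum_S t hw 2
  obtain ⟨S3, -, b3, c3⟩ := hasSum_S t hw 3
  have d1 := shift le_rfl b1
  have d2 := shift (by norm_num) b2
  have d3 := shift (by norm_num) b3
  have e1 := Complex.hasSum_im (c1 le_rfl)
  have e2 := Complex.hasSum_re (c2 (by norm_num))
  have e3 := Complex.hasSum_im (c3 (by norm_num))
  have f1 : ((-2 * (Real.pi:ℂ) * I) ^ (1 + 1) / ((1:ℕ).factorial : ℂ) * S1).im =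
      -(4 * Real.pi ^ 2) * S1.im := by
    have : (-2 * (Real.pi:ℂ) * I) ^ (1 + 1) / ((1:ℕ).factorial : ℂ) =
        ((-(4 * Real.pi ^ 2) : ℝ) : ℂ) := by
      push_cast
      have h : I * I = -1 := Complex.I_mul_I
      simp only [Nat.factorial, Nat.cast_one]
      linear_combination (4 * (Real.pi:ℂ) ^ 2) * h
    rw [this, Complex.im_ofReal_mul]
  have f2 : ((-2 * (Real.pi:ℂ) * I) ^ (2 + 1) / ((2:ℕ).factorial : ℂ) * S2).re =
      -(4 * Real.pi ^ 3) * S2.im := by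
    have : (-2 * (Real.pi:ℂ) * I) ^ (2 + 1) / ((2:ℕ).factorial : ℂ) =
        ((4 * Real.pi ^ 3 : ℝ) : ℂ) * I := by
      push_cast
      have h : I * I = -1 := Complex.I_mul_I
      simp only [Nat.factorial]
      push_cast
      linear_combination (-(4:ℂ) * (Real.pi:ℂ) ^ 3 * I) * h
    rw [this, mul_assoc, Complex.re_ofReal_mul, mul_comm I, Complex.mul_I_re]
    ring
  have f3 : ((-2 * (Real.pi:ℂ) * I) ^ (3 + 1) / ((3:ℕ).factorial : ℂ) * S3).im =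
      8 * Real.pi ^ 4 / 3 * S3.im := by
    have : (-2 * (Real.pi:ℂ) * I) ^ (3 + 1) / ((3:ℕ).factorial : ℂ) =
        ((8 * Real.pi ^ 4 / 3 : ℝ) : ℂ) := by
      push_cast
      have h : I * I = -1 := Complex.I_mul_I
      simp only [Nat.factorial]
      push_cast
      linear_combination ((8:ℂ) / 3 * (Real.pi:ℂ) ^ 4 * (I * I - 1)) * h
    rw [this, Complex.im_ofReal_mul]
  rw [f1] at e1
  rw [f2] at e2
  rw [f3] at e3
  have hwne : w ≠ 0 := hw.ne'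
  constructor
  · have g1 := e1.mul_left (-(1 / (2 * w)))
    have g2 : ∑' k : ℕ, ((k:ℝ) + 1) * Real.exp (-(2 * Real.pi * w * ((k:ℝ) + 1))) *
        Real.sin (2 * Real.pi * ((k:ℝ) + 1) * t) = S1.im := by
      rw [← d1.tsum_eq]
      refine tsum_congr fun k => ?_
      rw [Sk_succ]
      ring
    have g3 : 2 * Real.pi ^ 2 / w * S1.im = -(1 / (2 * w)) * (-(4 * Real.pi ^ 2) * S1.im) := by
      field_simp
      ring
    rw [g2, g3]
    have g4 : (fun j : ℤ => ((j:ℝ) + t) / (((j:ℝ) + t) ^ 2 + w ^ 2) ^ 2) =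
        fun j : ℤ => -(1 / (2 * w)) * (1 / (pnt t w + j) ^ (1 + 1)).im := by
      funext j
      rw [pnt_add, pt2 hw]
      have : (((j:ℝ) + t) ^ 2 + w ^ 2) ≠ 0 := by positivity
      field_simp
    rw [g4]
    exact g1
  · have g1 := ((e3.mul_left (3 / w)).sub (e2.mul_left (2 / w ^ 2))).sub (e1.mul_left (1 / w ^ 3))
    have g2 : HasSum (fun k : ℕ => ((k:ℝ) + 1) * Real.sin (2 * Real.pi * ((k:ℝ) + 1) * t) *
        (4 * Real.pi ^ 2 * ((k:ℝ) + 1) ^ 2 / w + 4 * Real.pi * ((k:ℝ) + 1) / w ^ 2 + 2 / w ^ 3) *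
        Real.exp (-(2 * Real.pi * w * ((k:ℝ) + 1))))
        (4 * Real.pi ^ 2 / w * S3.im + 4 * Real.pi / w ^ 2 * S2.im + 2 / w ^ 3 * S1.im) := by
      have g3 := ((d3.mul_left (4 * Real.pi ^ 2 / w)).add (d2.mul_left (4 * Real.pi / w ^ 2))).add
        (d1.mul_left (2 / w ^ 3))
      have g4 : (fun k : ℕ => ((k:ℝ) + 1) * Real.sin (2 * Real.pi * ((k:ℝ) + 1) * t) *
          (4 * Real.pi ^ 2 * ((k:ℝ) + 1) ^ 2 / w + 4 * Real.pi * ((k:ℝ) + 1) / w ^ 2 + 2 / w ^ 3) *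
          Real.exp (-(2 * Real.pi * w * ((k:ℝ) + 1)))) =
          fun k : ℕ => 4 * Real.pi ^ 2 / w * Sk t w 3 (k + 1) +
            4 * Real.pi / w ^ 2 * Sk t w 2 (k + 1) + 2 / w ^ 3 * Sk t w 1 (k + 1) := by
        funext k
        rw [Sk_succ, Sk_succ, Sk_succ]
        ring
      rw [g4]
      exact g3
    rw [g2.tsum_eq]
    have g5 : 2 * Real.pi ^ 2 * (4 * Real.pi ^ 2 / w * S3.im + 4 * Real.pi / w ^ 2 * S2.im +
        2 / w ^ 3 * S1.im) = 3 / w * (8 * Real.pi ^ 4 / 3 * S3.im) -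
        2 / w ^ 2 * (-(4 * Real.pi ^ 3) * S2.im) - 1 / w ^ 3 * (-(4 * Real.pi ^ 2) * S1.im) := by
      ring
    rw [g5]
    have g6 : (fun j : ℤ => ((j:ℝ) + t) * (20 * w ^ 2 - 4 * ((j:ℝ) + t) ^ 2) /
        (((j:ℝ) + t) ^ 2 + w ^ 2) ^ 4) = fun j : ℤ => 3 / w * (1 / (pnt t w + j) ^ (3 + 1)).im -
        2 / w ^ 2 * (1 / (pnt t w + j) ^ (2 + 1)).re - 1 / w ^ 3 * (1 / (pnt t w + j) ^ (1 + 1)).im := by
      funext j
      rw [pnt_add, pt2 hw, pt3 hw, pt4 hw]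
      generalize (j:ℝ) + t = x
      have : (x ^ 2 + w ^ 2) ≠ 0 := by positivity
      field_simp
      ring
    rw [g6]
    exact g1

end EC237.PF.PkLIPM
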